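import Mathlib

/-!
# A 2-reptile with a hole

The Lévy dragon `X`, the nonempty compact set with `X = f₀(X) ∪ f₁(X)` for `f₀ z = (1 + i)/2 z`
and `f₁ z = (1 - i)/2 z + (1 + i)/2`, is a 2-reptile, and a bounded component of its complement
contains the point `1/2 + 5/8 i`: this point is not in `X`, but `X` contains the boundary of the
convex octagon `|x - 1/2| ≤ 1/4`, `|y - 5/8| ≤ 1/4`, `|x - 1/2| + |y - 5/8| ≤ 3/8`.
Hence the least `n ≥ 2` for which there is an `n`-reptile with a hole is `2`.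
-/

set_option autoImplicit false

namespace Pool.Agent.Results.MP_25e24e_co.LevyDragonHole

open Complex Set Metric MeasureTheory Topology
open scoped Pointwise ENNReal

/-- A tile: a nonempty bounded subset of the plane which is the closure of its interior. -/
def IsTile (X : Set ℂ) : Prop :=
  X.Nonempty ∧ Bornology.IsBounded X ∧ X = closure (interior X)

/-- An `n`-reptile: a tile which is the union of `n` congruent copies of `n ^ (-1/2) X` with
pairwise disjoint interiors. -/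
def IsReptile (n : ℕ) (X : Set ℂ) : Prop :=
  IsTile X ∧ ∃ g : Fin n → (ℂ ≃ᵢ ℂ),
    X = ⋃ i, g i '' ((Real.sqrt n)⁻¹ • X) ∧
    ∀ i j, i ≠ j → Disjoint (interior (g i '' ((Real.sqrt n)⁻¹ • X)))
      (interior (g j '' ((Real.sqrt n)⁻¹ • X)))

/-- `X` has a hole: some connected component of the complement of `X` is bounded. -/
def HasHole (X : Set ℂ) : Prop :=
  ∃ p, p ∉ X ∧ Bornology.IsBounded (connectedComponentIn Xᶜ p)

noncomputable section

/-- The first map. -/
def f0 (z : ℂ) : ℂ := (1 + I) / 2 * z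

/-- The second map. -/
def f1 (z : ℂ) : ℂ := (1 - I) / 2 * z + (1 + I) / 2

/-- The orbit of `0` under the two maps. -/
inductive Orb : ℂ → Prop
  | zero : Orb 0
  | m0 {z : ℂ} : Orb z → Orb (f0 z)
  | m1 {z : ℂ} : Orb z → Orb (f1 z)

/-- The Lévy dragon. -/
def levy : Set ℂ := closure {z | Orb z}

lemma one_add_I_ne : (1 + I) / 2 ≠ 0 := by
  intro h
  have := congrArg Complex.re h
  norm_num at this

lemma one_sub_I_ne : (1 - I) / 2 ≠ 0 := by
  intro h
  have := congrArg Complex.re h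
  norm_num at this

/-- `f0` as a homeomorphism. -/
def h0 : ℂ ≃ₜ ℂ := Homeomorph.mulLeft₀ ((1 + I) / 2) one_add_I_ne

/-- `f1` as a homeomorphism. -/
def h1 : ℂ ≃ₜ ℂ := (Homeomorph.mulLeft₀ ((1 - I) / 2) one_sub_I_ne).trans
  (Homeomorph.addRight ((1 + I) / 2))

lemma h0_apply (z : ℂ) : h0 z = f0 z := rfl
lemma h1_apply (z : ℂ) : h1 z = f1 z := rfl

lemma h0_image (s : Set ℂ) : h0 '' s = f0 '' s := rfl
lemma h1_image (s : Set ℂ) : h1 '' s = f1 '' s := rfl

lemma orb_eq : {z | Orb z} = f0 '' {z | Orb z} ∪ f1 '' {z | Orb z} := by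
  ext z
  constructor
  · intro hz
    cases hz with
    | zero => exact Or.inl ⟨0, Orb.zero, by simp [f0]⟩
    | m0 h => exact Or.inl ⟨_, h, rfl⟩
    | m1 h => exact Or.inr ⟨_, h, rfl⟩
  · rintro (⟨w, hw, rfl⟩ | ⟨w, hw, rfl⟩)
    · exact Orb.m0 hw
    · exact Orb.m1 hw

lemma levy_eq : levy = f0 '' levy ∪ f1 '' levy := by
  unfold levy
  rw [← h0_image, ← h1_image, h0.image_closure, h1.image_closure, h0_image, h1_image,
    ← closure_union, ← orb_eq]

lemma isClosed_levy : IsClosed levy := isClosed_closure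

lemma zero_mem : (0 : ℂ) ∈ levy := subset_closure Orb.zero

lemma f0_mem {z : ℂ} (h : z ∈ levy) : f0 z ∈ levy := by
  rw [levy_eq]; exact Or.inl ⟨z, h, rfl⟩

lemma f1_mem {z : ℂ} (h : z ∈ levy) : f1 z ∈ levy := by
  rw [levy_eq]; exact Or.inr ⟨z, h, rfl⟩

/-! ### Coordinates -/

/-- The point `x + i y` is in the Lévy dragon. -/
def L (x y : ℝ) : Prop := (⟨x, y⟩ : ℂ) ∈ levy

lemma f0_mk (x y : ℝ) : f0 ⟨x, y⟩ = ⟨(x - y) / 2, (x + y) / 2⟩ := by
  apply Complex.ext <;> simp [f0] <;> ring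

lemma f1_mk (x y : ℝ) : f1 ⟨x, y⟩ = ⟨(x + y) / 2 + 1 / 2, (y - x) / 2 + 1 / 2⟩ := by
  apply Complex.ext <;> simp [f1] <;> ring

lemma L_step {x y : ℝ} (h : L x y) : L (x + y) (y - x) ∨ L (x - y) (x + y - 1) := by
  unfold L at h
  rw [levy_eq] at h
  rcases h with ⟨⟨a, b⟩, hw, hz⟩ | ⟨⟨a, b⟩, hw, hz⟩
  · left
    rw [f0_mk, Complex.mk.injEq] at hz
    obtain ⟨h1, h2⟩ := hz
    have e1 : x + y = a := by linarith
    have e2 : y - x = b := by linarith
    unfold L
    rw [e1, e2]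
    exact hw
  · right
    rw [f1_mk, Complex.mk.injEq] at hz
    obtain ⟨h1, h2⟩ := hz
    have e1 : x - y = a := by linarith
    have e2 : x + y - 1 = b := by linarith
    unfold L
    rw [e1, e2]
    exact hw

lemma up0 {x y : ℝ} (h : L (x + y) (y - x)) : L x y := by
  have := f0_mem h
  rw [f0_mk] at this
  unfold L
  convert this using 2 <;> ring

lemma up1 {x y : ℝ} (h : L (x - y) (x + y - 1)) : L x y := by
  have := f1_mem h
  rw [f1_mk] at this
  unfold L
  convert this using 2 <;> ring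

/-- The convex hull of the dragon. -/
def hull : Set ℂ := {z | (-1 / 2 ≤ z.re ∧ z.re ≤ 3 / 2) ∧ (-1 / 4 ≤ z.im ∧ z.im ≤ 1) ∧
  (-1 / 2 ≤ z.re + z.im ∧ z.re + z.im ≤ 2) ∧ (-1 ≤ z.re - z.im ∧ z.re - z.im ≤ 3 / 2)}

lemma isClosed_hull : IsClosed hull := by
  simp only [hull, Set.ofPred_and]
  refine IsClosed.inter (IsClosed.inter ?_ ?_) (IsClosed.inter (IsClosed.inter ?_ ?_)
    (IsClosed.inter (IsClosed.inter ?_ ?_) (IsClosed.inter ?_ ?_)))
  all_goals
    apply isClosed_le <;> fun_prop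

lemma orb_hull {z : ℂ} (h : Orb z) : z ∈ hull := by
  induction h with
  | zero => unfold hull; norm_num
  | @m0 z _ ih =>
    obtain ⟨x, y⟩ := z
    rw [f0_mk]
    unfold hull at ih ⊢
    simp only [Set.mem_ofPred_eq] at ih ⊢
    obtain ⟨⟨a1, a2⟩, ⟨a3, a4⟩, ⟨a5, a6⟩, a7, a8⟩ := ih
    refine ⟨⟨?_, ?_⟩, ⟨?_, ?_⟩, ⟨?_, ?_⟩, ?_, ?_⟩ <;> linarith
  | @m1 z _ ih =>
    obtain ⟨x, y⟩ := z
    rw [f1_mk]
    unfold hull at ih ⊢
    simp only [Set.mem_ofPred_eq] at ih ⊢
    obtain ⟨⟨a1, a2⟩, ⟨a3, a4⟩, ⟨a5, a6⟩, a7, a8⟩ := ih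
    refine ⟨⟨?_, ?_⟩, ⟨?_, ?_⟩, ⟨?_, ?_⟩, ?_, ?_⟩ <;> linarith

lemma levy_subset_hull : levy ⊆ hull := closure_minimal (fun _ h => orb_hull h) isClosed_hull

/-! ### A point which is not in the dragon -/

/-- A certificate that the point `(x, y)` is not in the dragon. -/
def out : ℕ → ℚ → ℚ → Bool
  | 0, _, _ => false
  | n + 1, x, y => (decide (x < -1 / 2) || decide (3 / 2 < x) || decide (y < -1 / 4) ||
      decide (1 < y) || decide (x + y < -1 / 2) || decide (2 < x + y) || decide (x - y < -1) ||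
      decide (3 / 2 < x - y)) ||
      (out n (x + y) (y - x) && out n (x - y) (x + y - 1))

lemma out_sound (n : ℕ) : ∀ x y : ℚ, out n x y = true → ¬ L x y := by
  induction n with
  | zero => intro x y h; simp [out] at h
  | succ n ih =>
    intro x y h hL
    have hh := levy_subset_hull hL
    unfold hull at hh
    simp only [Set.mem_ofPred_eq] at hh
    obtain ⟨⟨a1, a2⟩, ⟨a3, a4⟩, ⟨a5, a6⟩, a7, a8⟩ := hh
    unfold out at h
    rw [Bool.or_eq_true, Bool.and_eq_true] at h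
    rcases h with h | ⟨h1, h2⟩
    · simp only [Bool.or_eq_true, decide_eq_true_eq] at h
      rcases h with ((((((h | h) | h) | h) | h) | h) | h) | h
      · have : (x : ℝ) < ((-1 / 2 : ℚ) : ℝ) := by exact_mod_cast h
        push_cast at this; linarith
      · have : ((3 / 2 : ℚ) : ℝ) < (x : ℝ) := by exact_mod_cast h
        push_cast at this; linarith
      · have : (y : ℝ) < ((-1 / 4 : ℚ) : ℝ) := by exact_mod_cast h
        push_cast at this; linarith
      · have : ((1 : ℚ) : ℝ) < (y : ℝ) := by exact_mod_cast h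
        push_cast at this; linarith
      · have : ((x + y : ℚ) : ℝ) < ((-1 / 2 : ℚ) : ℝ) := by exact_mod_cast h
        push_cast at this; linarith
      · have : ((2 : ℚ) : ℝ) < ((x + y : ℚ) : ℝ) := by exact_mod_cast h
        push_cast at this; linarith
      · have : ((x - y : ℚ) : ℝ) < ((-1 : ℚ) : ℝ) := by exact_mod_cast h
        push_cast at this; linarith
      · have : ((3 / 2 : ℚ) : ℝ) < ((x - y : ℚ) : ℝ) := by exact_mod_cast h
        push_cast at this; linarith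
    · rcases L_step hL with h3 | h3
      · apply ih _ _ h1
        push_cast
        exact h3
      · apply ih _ _ h2
        push_cast
        exact h3

lemma not_mem : (⟨1 / 2, 5 / 8⟩ : ℂ) ∉ levy := by
  have h : out 7 (1 / 2) (5 / 8) = true := by
    decide +kernel
  have h2 := out_sound 7 _ _ h
  unfold L at h2
  push_cast at h2
  exact h2

/-! ### The top side and the octagon -/

lemma dist_f0 (z w : ℂ) : dist (f0 z) (f0 w) = (Real.sqrt 2)⁻¹ * dist z w := by
  have h1 : ‖(1 + I) / 2‖ = (Real.sqrt 2)⁻¹ := by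
    rw [Complex.norm_eq_sqrt_sq_add_sq]
    norm_num
  rw [dist_eq_norm, dist_eq_norm, ← h1, ← norm_mul]
  congr 1
  unfold f0; ring

lemma dist_f1 (z w : ℂ) : dist (f1 z) (f1 w) = (Real.sqrt 2)⁻¹ * dist z w := by
  have h1 : ‖(1 - I) / 2‖ = (Real.sqrt 2)⁻¹ := by
    rw [Complex.norm_eq_sqrt_sq_add_sq]
    norm_num
  rw [dist_eq_norm, dist_eq_norm, ← h1, ← norm_mul]
  congr 1
  unfold f1; ring

lemma half : (Real.sqrt 2)⁻¹ * (Real.sqrt 2)⁻¹ = 1 / 2 := by
  rw [← mul_inv, Real.mul_self_sqrt (by norm_num)]; norm_num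

lemma top_aux (n : ℕ) : ∀ x : ℝ, 0 ≤ x → x ≤ 1 → ∃ w ∈ levy, dist (⟨x, 1⟩ : ℂ) w ≤ 4 / 2 ^ n := by
  induction n with
  | zero =>
    intro x h0 h1
    refine ⟨0, zero_mem, ?_⟩
    rw [dist_zero_right]
    refine (Complex.norm_le_abs_re_add_abs_im _).trans ?_
    simp only [abs_one]
    rw [abs_of_nonneg h0]
    norm_num
    linarith
  | succ n ih =>
    intro x h0 h1
    rcases le_total x (1 / 2) with h | h
    · obtain ⟨w, hw, hd⟩ := ih (2 * x) (by linarith) (by linarith)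
      refine ⟨f0 (f1 w), f0_mem (f1_mem hw), ?_⟩
      have e : (⟨x, 1⟩ : ℂ) = f0 (f1 ⟨2 * x, 1⟩) := by
        rw [f1_mk, f0_mk]
        apply Complex.ext <;> simp <;> ring
      rw [e, dist_f0, dist_f1, ← mul_assoc, half, pow_succ]
      calc 1 / 2 * dist (⟨2 * x, 1⟩ : ℂ) w ≤ 1 / 2 * (4 / 2 ^ n) := by gcongr
        _ = 4 / (2 ^ n * 2) := by ring
    · obtain ⟨w, hw, hd⟩ := ih (2 * x - 1) (by linarith) (by linarith)
      refine ⟨f1 (f0 w), f1_mem (f0_mem hw), ?_⟩
      have e : (⟨x, 1⟩ : ℂ) = f1 (f0 ⟨2 * x - 1, 1⟩) := by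
        rw [f0_mk, f1_mk]
        apply Complex.ext <;> simp <;> ring
      rw [e, dist_f1, dist_f0, ← mul_assoc, half, pow_succ]
      calc 1 / 2 * dist (⟨2 * x - 1, 1⟩ : ℂ) w ≤ 1 / 2 * (4 / 2 ^ n) := by gcongr
        _ = 4 / (2 ^ n * 2) := by ring

/-- The top side of the convex hull is contained in the dragon. -/
lemma top {x y : ℝ} (h0 : 0 ≤ x) (h1 : x ≤ 1) (hy : y = 1) : L x y := by
  subst hy
  unfold L
  rw [← isClosed_levy.closure_eq, Metric.mem_closure_iff]
  intro ε hε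
  obtain ⟨n, hn⟩ := exists_pow_lt_of_lt_one (show (0 : ℝ) < ε / 4 by positivity)
    (show (1 / 2 : ℝ) < 1 by norm_num)
  obtain ⟨w, hw, hd⟩ := top_aux n x h0 h1
  refine ⟨w, hw, hd.trans_lt ?_⟩
  have : (4 : ℝ) / 2 ^ n = 4 * (1 / 2) ^ n := by rw [one_div, inv_pow]; ring
  rw [this]
  linarith

/-- The open octagon. -/
def oct : Set ℂ := {z | (1 / 4 < z.re ∧ z.re < 3 / 4) ∧ (3 / 8 < z.im ∧ z.im < 7 / 8) ∧
  (3 / 4 < z.re + z.im ∧ z.re + z.im < 3 / 2) ∧ (-1 / 2 < z.re - z.im ∧ z.re - z.im < 1 / 4)}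

/-- The closed octagon. -/
def coct : Set ℂ := {z | (1 / 4 ≤ z.re ∧ z.re ≤ 3 / 4) ∧ (3 / 8 ≤ z.im ∧ z.im ≤ 7 / 8) ∧
  (3 / 4 ≤ z.re + z.im ∧ z.re + z.im ≤ 3 / 2) ∧ (-1 / 2 ≤ z.re - z.im ∧ z.re - z.im ≤ 1 / 4)}

lemma isOpen_oct : IsOpen oct := by
  simp only [oct, Set.ofPred_and]
  refine IsOpen.inter (IsOpen.inter ?_ ?_) (IsOpen.inter (IsOpen.inter ?_ ?_)
    (IsOpen.inter (IsOpen.inter ?_ ?_) (IsOpen.inter ?_ ?_)))
  all_goals
    apply isOpen_lt <;> fun_prop

lemma isClosed_coct : IsClosed coct := by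
  simp only [coct, Set.ofPred_and]
  refine IsClosed.inter (IsClosed.inter ?_ ?_) (IsClosed.inter (IsClosed.inter ?_ ?_)
    (IsClosed.inter (IsClosed.inter ?_ ?_) (IsClosed.inter ?_ ?_)))
  all_goals
    apply isClosed_le <;> fun_prop

lemma boundary_mem {z : ℂ} (h1 : z ∈ coct) (h2 : z ∉ oct) : z ∈ levy := by
  obtain ⟨x, y⟩ := z
  change L x y
  unfold coct at h1
  unfold oct at h2
  simp only [Set.mem_ofPred_eq] at h1 h2
  obtain ⟨⟨a1, a2⟩, ⟨a3, a4⟩, ⟨a5, a6⟩, a7, a8⟩ := h1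
  by_cases e1 : x = 1 / 4
  · subst e1
    exact up1 (up0 (up0 (up0 (top (by linarith) (by linarith) (by linarith)))))
  by_cases e2 : x = 3 / 4
  · subst e2
    exact up0 (up1 (up1 (up1 (top (by linarith) (by linarith) (by linarith)))))
  by_cases e3 : y = 3 / 8
  · subst e3
    rcases le_total x (1 / 2) with h | h
    · exact up1 (up0 (up0 (up0 (up0 (up0 (top (by linarith) (by linarith) (by linarith)))))))
    · exact up0 (up1 (up1 (up1 (up1 (up1 (top (by linarith) (by linarith) (by linarith)))))))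
  by_cases e4 : y = 7 / 8
  · subst e4
    rcases le_total x (1 / 2) with h | h
    · exact up1 (up0 (up0 (up0 (up1 (up1 (top (by linarith) (by linarith) (by linarith)))))))
    · exact up0 (up1 (up1 (up1 (up0 (up0 (top (by linarith) (by linarith) (by linarith)))))))
  by_cases e5 : x + y = 3 / 4
  · obtain rfl : y = 3 / 4 - x := by linarith
    exact up1 (up0 (up0 (up0 (up0 (top (by linarith) (by linarith) (by linarith))))))
  by_cases e6 : x + y = 3 / 2
  · obtain rfl : y = 3 / 2 - x := by linarith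
    exact up0 (up1 (up1 (top (by linarith) (by linarith) (by linarith))))
  by_cases e7 : x - y = -1 / 2
  · obtain rfl : y = x + 1 / 2 := by linarith
    exact up1 (up0 (up0 (top (by linarith) (by linarith) (by linarith))))
  by_cases e8 : x - y = 1 / 4
  · obtain rfl : y = x - 1 / 4 := by linarith
    exact up0 (up1 (up1 (up1 (up1 (top (by linarith) (by linarith) (by linarith))))))
  exfalso
  apply h2
  refine ⟨⟨lt_of_le_of_ne a1 (Ne.symm e1), lt_of_le_of_ne a2 e2⟩,
    ⟨lt_of_le_of_ne a3 (Ne.symm e3), lt_of_le_of_ne a4 e4⟩,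
    ⟨lt_of_le_of_ne a5 (Ne.symm e5), lt_of_le_of_ne a6 e6⟩,
    lt_of_le_of_ne a7 (Ne.symm e7), lt_of_le_of_ne a8 e8⟩

lemma hasHole : HasHole levy := by
  refine ⟨⟨1 / 2, 5 / 8⟩, not_mem, ?_⟩
  set C := connectedComponentIn levyᶜ ⟨1 / 2, 5 / 8⟩ with hC
  have hpre : IsPreconnected C := isPreconnected_connectedComponentIn
  have hsub : C ⊆ levyᶜ := connectedComponentIn_subset _ _
  have hmem : (⟨1 / 2, 5 / 8⟩ : ℂ) ∈ C := mem_connectedComponentIn not_mem
  have hpoct : (⟨1 / 2, 5 / 8⟩ : ℂ) ∈ oct := by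
    unfold oct; simp only [Set.mem_ofPred_eq]; norm_num
  have hcover : C ⊆ oct ∪ coctᶜ := by
    intro z hz
    by_cases h1 : z ∈ oct
    · exact Or.inl h1
    · right
      intro h2
      exact hsub hz (boundary_mem h2 h1)
  have hdisj : Disjoint oct coctᶜ := by
    rw [Set.disjoint_left]
    rintro z h1 h2
    apply h2
    obtain ⟨⟨a1, a2⟩, ⟨a3, a4⟩, ⟨a5, a6⟩, a7, a8⟩ := h1
    exact ⟨⟨a1.le, a2.le⟩, ⟨a3.le, a4.le⟩, ⟨a5.le, a6.le⟩, a7.le, a8.le⟩
  have hin : C ⊆ oct := hpre.subset_left_of_subset_union isOpen_oct isClosed_coct.isOpen_compl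
    hdisj hcover ⟨_, hmem, hpoct⟩
  refine (Metric.isBounded_closedBall (x := (0 : ℂ)) (r := 2)).subset fun z hz => ?_
  obtain ⟨⟨a1, a2⟩, ⟨a3, a4⟩, -⟩ := hin hz
  rw [mem_closedBall, dist_zero_right]
  refine (Complex.norm_le_abs_re_add_abs_im _).trans ?_
  rw [abs_of_nonneg (by linarith), abs_of_nonneg (by linarith)]
  linarith

/-! ### The dragon has interior points -/

lemma levy_subset_ball : levy ⊆ closedBall 0 3 := by
  intro z hz
  obtain ⟨⟨a1, a2⟩, ⟨a3, a4⟩, -⟩ := levy_subset_hull hz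
  rw [mem_closedBall, dist_zero_right]
  refine (Complex.norm_le_abs_re_add_abs_im _).trans ?_
  have h1 : |z.re| ≤ 3 / 2 := abs_le.2 ⟨by linarith, a2⟩
  have h2 : |z.im| ≤ 1 := abs_le.2 ⟨by linarith, a4⟩
  linarith

/-- The copy of the dragon which starts at the Gaussian integer `a + b i` in direction `i ^ k`. -/
def piece (j : ℤ × ℤ × Fin 4) : Set ℂ :=
  (fun z => ((j.1 : ℂ) + j.2.1 * I) + I ^ (j.2.2 : ℕ) * z) '' levy

lemma isClosed_piece (j : ℤ × ℤ × Fin 4) : IsClosed (piece j) := by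
  have hI : I ^ (j.2.2 : ℕ) ≠ 0 := pow_ne_zero _ I_ne_zero
  have : piece j = ((Homeomorph.mulLeft₀ _ hI).trans
      (Homeomorph.addLeft ((j.1 : ℂ) + j.2.1 * I))) '' levy := rfl
  rw [this]
  exact (Homeomorph.isClosedMap _) _ isClosed_levy

/-- The union of the pieces. -/
def U : Set ℂ := ⋃ j, piece j

lemma mem_U_iff (z : ℂ) : z ∈ U ↔ ∃ (a b : ℤ) (k : ℕ), ∃ x ∈ levy,
    z = ((a : ℂ) + b * I) + I ^ k * x := by
  unfold U piece
  simp only [Set.mem_iUnion, Set.mem_image]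
  constructor
  · rintro ⟨⟨a, b, k⟩, x, hx, rfl⟩
    exact ⟨a, b, k, x, hx, rfl⟩
  · rintro ⟨a, b, k, x, hx, rfl⟩
    refine ⟨(a, b, ⟨k % 4, Nat.mod_lt _ (by norm_num)⟩), x, hx, ?_⟩
    have : I ^ (k % 4) = I ^ k := (Complex.I_pow_eq_pow_mod k).symm
    simp only [this]

lemma s_mul_mem_U {z : ℂ} (h : z ∈ U) : (1 + I) / 2 * z ∈ U := by
  rw [mem_U_iff] at h ⊢
  obtain ⟨a, b, k, x, hx, rfl⟩ := h
  -- `I ^ (k + 1) = c + d I` with `c + d` odd
  have hI : ∃ c d : ℤ, (c + d) % 2 = 1 ∧ I ^ (k + 1) = (c : ℂ) + d * I := by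
    induction k with
    | zero => exact ⟨0, 1, by norm_num, by simp⟩
    | succ k ih =>
      obtain ⟨c, d, h1, h2⟩ := ih
      refine ⟨-d, c, by omega, ?_⟩
      rw [pow_succ, h2]
      push_cast
      linear_combination (d : ℂ) * I_mul_I
  obtain ⟨c, d, hcd, hI⟩ := hI
  rcases Int.emod_two_eq_zero_or_one (a + b) with hab | hab
  · -- even
    refine ⟨(a - b) / 2, (a + b) / 2, k, f0 x, f0_mem hx, ?_⟩
    have h1 : ((((a - b) / 2 : ℤ)) : ℂ) = ((a : ℂ) - b) / 2 := by
      rw [Int.cast_div (by omega) (by norm_num)]; push_cast; ring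
    have h2 : ((((a + b) / 2 : ℤ)) : ℂ) = ((a : ℂ) + b) / 2 := by
      rw [Int.cast_div (by omega) (by norm_num)]; push_cast; ring
    rw [h1, h2]
    unfold f0
    linear_combination (b / 2 : ℂ) * I_mul_I
  · -- odd
    refine ⟨((a - c) - (b - d)) / 2, ((a - c) + (b - d)) / 2, k + 1, f1 x, f1_mem hx, ?_⟩
    have h1 : (((((a - c) - (b - d)) / 2 : ℤ)) : ℂ) = (((a : ℂ) - c) - (b - d)) / 2 := by
      rw [Int.cast_div (by omega) (by norm_num)]; push_cast; ring
    have h2 : (((((a - c) + (b - d)) / 2 : ℤ)) : ℂ) = (((a : ℂ) - c) + (b - d)) / 2 := by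
      rw [Int.cast_div (by omega) (by norm_num)]; push_cast; ring
    rw [h1, h2]
    unfold f1
    have e1 : I ^ (k + 1) * ((1 - I) / 2 * x + (1 + I) / 2) =
        I ^ k * ((1 + I) / 2 * x) + I ^ (k + 1) * ((1 + I) / 2) := by
      rw [pow_succ]
      linear_combination (-(I ^ k) * x / 2) * I_mul_I
    rw [e1, hI]
    linear_combination (b / 2 - d / 2 : ℂ) * I_mul_I

lemma gauss_mem_U (a b : ℤ) : ((a : ℂ) + b * I) ∈ U := by
  rw [mem_U_iff]
  exact ⟨a, b, 0, 0, zero_mem, by simp⟩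

lemma pow_mem_U (n : ℕ) (a b : ℤ) : ((1 + I) / 2) ^ n * ((a : ℂ) + b * I) ∈ U := by
  induction n with
  | zero => simpa using gauss_mem_U a b
  | succ n ih =>
    have := s_mul_mem_U ih
    rw [pow_succ']
    rwa [mul_assoc]

lemma dense_U : Dense U := by
  rw [Metric.dense_iff]
  intro z ε hε
  have hs : ‖(1 + I) / 2‖ < 1 := by
    have h1 : ‖(1 + I) / 2‖ = (Real.sqrt 2)⁻¹ := by
      rw [Complex.norm_eq_sqrt_sq_add_sq]
      norm_num
    rw [h1]
    apply inv_lt_one_of_one_lt₀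
    rw [Real.lt_sqrt (by norm_num)]
    norm_num
  obtain ⟨n, hn⟩ := exists_pow_lt_of_lt_one (show (0 : ℝ) < ε / 2 by positivity) hs
  set s : ℂ := ((1 + I) / 2) ^ n with hsdef
  have hs0 : s ≠ 0 := pow_ne_zero _ one_add_I_ne
  set w := z / s with hw
  have hz : z = s * w := by rw [hw]; field_simp
  refine ⟨s * ((round w.re : ℂ) + (round w.im : ℂ) * I), ?_, pow_mem_U n _ _⟩
  rw [mem_ball, hz, dist_comm, dist_eq_norm, ← mul_sub, norm_mul]
  have h1 : ‖s‖ < ε / 2 := by rw [hsdef, norm_pow]; exact hn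
  have h2 : ‖w - ((round w.re : ℂ) + (round w.im : ℂ) * I)‖ ≤ 1 := by
    refine (Complex.norm_le_abs_re_add_abs_im _).trans ?_
    have e1 : (w - ((round w.re : ℂ) + (round w.im : ℂ) * I)).re = w.re - round w.re := by
      simp
    have e2 : (w - ((round w.re : ℂ) + (round w.im : ℂ) * I)).im = w.im - round w.im := by
      simp
    rw [e1, e2]
    have := abs_sub_round w.re
    have := abs_sub_round w.im
    linarith
  calc ‖s‖ * ‖w - ((round w.re : ℂ) + (round w.im : ℂ) * I)‖ ≤ ‖s‖ * 1 := by gcongr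
    _ < ε := by linarith

lemma locallyFinite_piece : LocallyFinite piece := by
  intro z
  refine ⟨ball z 1, ball_mem_nhds z one_pos, ?_⟩
  have hfin : (Set.Icc (⌊z.re⌋ - 5) (⌈z.re⌉ + 5) ×ˢ (Set.Icc (⌊z.im⌋ - 5) (⌈z.im⌉ + 5) ×ˢ
      (Set.univ : Set (Fin 4)))).Finite :=
    (Set.finite_Icc _ _).prod ((Set.finite_Icc _ _).prod Set.finite_univ)
  refine hfin.subset ?_
  rintro ⟨a, b, k⟩ ⟨w, ⟨x, hx, rfl⟩, hw2⟩
  rw [mem_ball, dist_eq_norm] at hw2
  have hx3 : ‖x‖ ≤ 3 := by
    have := levy_subset_ball hx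
    rwa [mem_closedBall, dist_zero_right] at this
  have h4 : ‖((a : ℂ) + b * I) - z‖ ≤ 4 := by
    have e : ((a : ℂ) + b * I) - z = (((a : ℂ) + b * I) + I ^ (k : ℕ) * x - z) - I ^ (k : ℕ) * x := by
      ring
    rw [e]
    refine (norm_sub_le _ _).trans ?_
    rw [norm_mul, norm_pow, Complex.norm_I, one_pow, one_mul]
    have : ‖((a : ℂ) + b * I) + I ^ (k : ℕ) * x - z‖ < 1 := hw2
    linarith
  have h5 := (Complex.abs_re_le_norm (((a : ℂ) + b * I) - z)).trans h4
  have h6 := (Complex.abs_im_le_norm (((a : ℂ) + b * I) - z)).trans h4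
  have e1 : (((a : ℂ) + b * I) - z).re = a - z.re := by simp
  have e2 : (((a : ℂ) + b * I) - z).im = b - z.im := by simp
  rw [e1, abs_le] at h5
  rw [e2, abs_le] at h6
  have f1 := Int.floor_le z.re
  have f2 := Int.le_ceil z.re
  have f3 := Int.floor_le z.im
  have f4 := Int.le_ceil z.im
  refine ⟨⟨?_, ?_⟩, ⟨?_, ?_⟩, Set.mem_univ _⟩
  · have : ((⌊z.re⌋ - 5 : ℤ) : ℝ) ≤ (a : ℝ) := by push_cast; linarith
    exact_mod_cast this
  · have : (a : ℝ) ≤ ((⌈z.re⌉ + 5 : ℤ) : ℝ) := by push_cast; linarith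
    exact_mod_cast this
  · have : ((⌊z.im⌋ - 5 : ℤ) : ℝ) ≤ (b : ℝ) := by push_cast; linarith
    exact_mod_cast this
  · have : (b : ℝ) ≤ ((⌈z.im⌉ + 5 : ℤ) : ℝ) := by push_cast; linarith
    exact_mod_cast this

lemma U_eq : U = Set.univ := by
  have hcl : IsClosed U := locallyFinite_piece.isClosed_iUnion isClosed_piece
  rw [← hcl.closure_eq]
  exact dense_U.closure_eq

lemma interior_nonempty : (interior levy).Nonempty := by
  obtain ⟨j, hj⟩ := nonempty_interior_of_iUnion_of_closed isClosed_piece U_eq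
  have hI : I ^ (j.2.2 : ℕ) ≠ 0 := pow_ne_zero _ I_ne_zero
  have : piece j = ((Homeomorph.mulLeft₀ _ hI).trans
      (Homeomorph.addLeft ((j.1 : ℂ) + j.2.1 * I))) '' levy := rfl
  rw [this, ← Homeomorph.image_interior] at hj
  exact hj.of_image

lemma interior_f0 {z : ℂ} (h : z ∈ interior levy) : f0 z ∈ interior levy := by
  have h2 : f0 z ∈ h0 '' interior levy := ⟨z, h, rfl⟩
  rw [h0.image_interior] at h2
  refine interior_mono ?_ h2
  rw [h0_image]
  rintro _ ⟨w, hw, rfl⟩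
  exact f0_mem hw

lemma interior_f1 {z : ℂ} (h : z ∈ interior levy) : f1 z ∈ interior levy := by
  have h2 : f1 z ∈ h1 '' interior levy := ⟨z, h, rfl⟩
  rw [h1.image_interior] at h2
  refine interior_mono ?_ h2
  rw [h1_image]
  rintro _ ⟨w, hw, rfl⟩
  exact f1_mem hw

lemma closure_interior : levy = closure (interior levy) := by
  apply Set.Subset.antisymm
  · apply closure_minimal _ isClosed_closure
    -- the closure of the interior is invariant under both maps
    have hf0 : ∀ z ∈ closure (interior levy), f0 z ∈ closure (interior levy) := by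
      intro z hz
      have h2 : f0 z ∈ h0 '' closure (interior levy) := ⟨z, hz, rfl⟩
      rw [h0.image_closure] at h2
      refine closure_mono ?_ h2
      rintro _ ⟨w, hw, rfl⟩
      exact interior_f0 hw
    have hf1 : ∀ z ∈ closure (interior levy), f1 z ∈ closure (interior levy) := by
      intro z hz
      have h2 : f1 z ∈ h1 '' closure (interior levy) := ⟨z, hz, rfl⟩
      rw [h1.image_closure] at h2
      refine closure_mono ?_ h2
      rintro _ ⟨w, hw, rfl⟩
      exact interior_f1 hw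
    have hzero : (0 : ℂ) ∈ closure (interior levy) := by
      obtain ⟨y, hy⟩ := interior_nonempty
      rw [Metric.mem_closure_iff]
      intro ε hε
      have hs : (Real.sqrt 2)⁻¹ < 1 := by
        apply inv_lt_one_of_one_lt₀
        rw [Real.lt_sqrt (by norm_num)]
        norm_num
      have hs0 : 0 ≤ (Real.sqrt 2)⁻¹ := by positivity
      obtain ⟨n, hn⟩ := exists_pow_lt_of_lt_one (show (0 : ℝ) < ε / (dist 0 y + 1) by positivity) hs
      have hit : ∀ n : ℕ, f0^[n] y ∈ interior levy ∧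
          dist 0 (f0^[n] y) = (Real.sqrt 2)⁻¹ ^ n * dist 0 y := by
        intro n
        induction n with
        | zero => exact ⟨hy, by simp⟩
        | succ n ih =>
          rw [Function.iterate_succ_apply']
          refine ⟨interior_f0 ih.1, ?_⟩
          have h00 : f0 0 = 0 := by simp [f0]
          have := dist_f0 0 (f0^[n] y)
          rw [h00] at this
          rw [this, ih.2, pow_succ']
          ring
      refine ⟨f0^[n] y, (hit n).1, ?_⟩
      rw [(hit n).2]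
      rw [lt_div_iff₀ (by positivity)] at hn
      have : (Real.sqrt 2)⁻¹ ^ n * dist 0 y ≤ (Real.sqrt 2)⁻¹ ^ n * (dist 0 y + 1) := by
        gcongr
        linarith
      linarith
    intro z hz
    induction hz with
    | zero => exact hzero
    | m0 _ ih => exact hf0 _ ih
    | m1 _ ih => exact hf1 _ ih
  · exact closure_minimal interior_subset isClosed_levy

lemma isTile_levy : IsTile levy :=
  ⟨⟨0, zero_mem⟩, Metric.isBounded_closedBall.subset levy_subset_ball, closure_interior⟩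

/-! ### The two congruent copies -/

/-- The rotation by the angle `π / 4`. -/
def rho : Circle := Circle.exp (Real.pi / 4)

lemma coe_rho : (rho : ℂ) = ((Real.sqrt 2 / 2 : ℝ) : ℂ) * (1 + I) := by
  unfold rho
  rw [Circle.coe_exp, Complex.exp_mul_I, ← Complex.ofReal_cos, ← Complex.ofReal_sin,
    Real.cos_pi_div_four, Real.sin_pi_div_four]
  ring

lemma coe_rho_inv : ((rho⁻¹ : Circle) : ℂ) = ((Real.sqrt 2 / 2 : ℝ) : ℂ) * (1 - I) := by
  unfold rho
  rw [← Circle.exp_neg, Circle.coe_exp, Complex.exp_mul_I, ← Complex.ofReal_cos,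
    ← Complex.ofReal_sin, Real.cos_neg, Real.sin_neg, Real.cos_pi_div_four,
    Real.sin_pi_div_four]
  push_cast
  ring

/-- The two isometries. -/
def g : Fin 2 → (ℂ ≃ᵢ ℂ) :=
  ![(rotation rho).toIsometryEquiv,
    (rotation rho⁻¹).toIsometryEquiv.trans (IsometryEquiv.addRight ((1 + I) / 2))]

lemma sqrt_cast : ((Real.sqrt ((2 : ℕ) : ℝ))⁻¹ : ℝ) = (Real.sqrt 2)⁻¹ := by norm_num

lemma g0_image (s : Set ℂ) : g 0 '' ((Real.sqrt ((2 : ℕ) : ℝ))⁻¹ • s) = f0 '' s := by
  rw [sqrt_cast, ← Set.image_smul, Set.image_image]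
  apply Set.image_congr
  intro z _
  change (rho : ℂ) * ((Real.sqrt 2)⁻¹ • z) = f0 z
  rw [coe_rho, Complex.real_smul]
  unfold f0
  have h : ((Real.sqrt 2 : ℝ) : ℂ) ≠ 0 := by
    rw [Ne, Complex.ofReal_eq_zero]
    positivity
  push_cast
  field_simp

lemma g1_image (s : Set ℂ) : g 1 '' ((Real.sqrt ((2 : ℕ) : ℝ))⁻¹ • s) = f1 '' s := by
  rw [sqrt_cast, ← Set.image_smul, Set.image_image]
  apply Set.image_congr
  intro z _
  change ((rho⁻¹ : Circle) : ℂ) * ((Real.sqrt 2)⁻¹ • z) + (1 + I) / 2 = f1 z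
  rw [coe_rho_inv, Complex.real_smul]
  unfold f1
  have h : ((Real.sqrt 2 : ℝ) : ℂ) ≠ 0 := by
    rw [Ne, Complex.ofReal_eq_zero]
    positivity
  push_cast
  field_simp

lemma volume_rot (e : ℂ ≃ₗᵢ[ℝ] ℂ) {s : Set ℂ} (hs : MeasurableSet s) :
    volume (e '' s) = volume s := by
  have h := e.symm.measurePreserving.measure_preimage hs.nullMeasurableSet
  rw [← h]
  congr 1
  exact e.toEquiv.image_eq_preimage_symm s

lemma volume_scaled (s : Set ℂ) :
    volume ((Real.sqrt ((2 : ℕ) : ℝ))⁻¹ • s) = ENNReal.ofReal (1 / 2) * volume s := by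
  rw [sqrt_cast, Measure.addHaar_smul_of_nonneg _ (by positivity), Complex.finrank_real_complex]
  congr 2
  rw [pow_two, half]

lemma volume_f0 : volume (f0 '' levy) = ENNReal.ofReal (1 / 2) * volume levy := by
  rw [← g0_image, ← volume_scaled]
  refine volume_rot (rotation rho) ?_
  exact (isClosed_levy.smul₀ _).measurableSet

lemma volume_f1 : volume (f1 '' levy) = ENNReal.ofReal (1 / 2) * volume levy := by
  rw [← g1_image, ← volume_scaled]
  have h1 : g 1 '' ((Real.sqrt ((2 : ℕ) : ℝ))⁻¹ • levy) =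
      (fun z => z + (1 + I) / 2) '' (rotation rho⁻¹ '' ((Real.sqrt ((2 : ℕ) : ℝ))⁻¹ • levy)) := by
    rw [Set.image_image]
    rfl
  rw [h1, Set.image_add_right, measure_preimage_add_right]
  refine volume_rot (rotation rho⁻¹) ?_
  exact (isClosed_levy.smul₀ _).measurableSet

lemma isCompact_levy : IsCompact levy :=
  Metric.isCompact_of_isClosed_isBounded isClosed_levy
    (Metric.isBounded_closedBall.subset levy_subset_ball)

lemma disj : Disjoint (interior (f0 '' levy)) (interior (f1 '' levy)) := by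
  have hfin : volume levy ≠ ⊤ := isCompact_levy.measure_lt_top.ne
  have hm1 : MeasurableSet (f1 '' levy) := by
    rw [← h1_image]
    exact (h1.isClosedMap _ isClosed_levy).measurableSet
  have hsum : volume (f0 '' levy ∪ f1 '' levy) + volume (f0 '' levy ∩ f1 '' levy) =
      volume (f0 '' levy) + volume (f1 '' levy) := measure_union_add_inter _ hm1
  rw [← levy_eq, volume_f0, volume_f1, ← add_mul, ← ENNReal.ofReal_add (by norm_num) (by norm_num)]
    at hsum
  rw [show (1 / 2 + 1 / 2 : ℝ) = 1 by norm_num, ENNReal.ofReal_one, one_mul] at hsum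
  have h0 : volume (f0 '' levy ∩ f1 '' levy) = 0 :=
    (ENNReal.add_right_inj hfin).1 (by rw [hsum, add_zero])
  rw [Set.disjoint_iff_inter_eq_empty, ← interior_inter]
  by_contra hne
  have hpos : 0 < volume (interior (f0 '' levy ∩ f1 '' levy)) :=
    isOpen_interior.measure_pos volume (Set.nonempty_iff_ne_empty.2 hne)
  have := measure_mono_null interior_subset h0
  exact hpos.ne' this

lemma isReptile_levy : IsReptile 2 levy := by
  refine ⟨isTile_levy, g, ?_, ?_⟩
  · have h : ⋃ i, g i '' ((Real.sqrt ((2 : ℕ) : ℝ))⁻¹ • levy) =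
        g 0 '' ((Real.sqrt ((2 : ℕ) : ℝ))⁻¹ • levy) ∪
          g 1 '' ((Real.sqrt ((2 : ℕ) : ℝ))⁻¹ • levy) := by
      ext z
      rw [Set.mem_iUnion, Fin.exists_fin_two]
      rfl
    rw [h, g0_image, g1_image]
    exact levy_eq
  · intro i j hij
    fin_cases i <;> fin_cases j
    · exact absurd rfl hij
    · change Disjoint (interior (g 0 '' _)) (interior (g 1 '' _))
      rw [g0_image, g1_image]
      exact disj
    · change Disjoint (interior (g 1 '' _)) (interior (g 0 '' _))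
      rw [g0_image, g1_image]
      exact disj.symm
    · exact absurd rfl hij

end

/-- The least integer `n ≥ 2` for which there is an `n`-reptile with a hole is `2`. -/
theorem result : IsLeast {n : ℕ | 2 ≤ n ∧ ∃ X : Set ℂ, IsReptile n X ∧ HasHole X} 2 :=
  ⟨⟨le_rfl, levy, isReptile_levy, hasHole⟩, fun _ hn => hn.1⟩

end Pool.Agent.Results.MP_25e24e_co.LevyDragonHole
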